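import Pool.Agent.H73.FX.Asm
import Pool.Graph.R_seed8.R282.EV.Fin

set_option autoImplicit false

/-! # Consequences (helper73, helper702) -/

namespace Pool.Agent.H73.FX

open Pool.Agent.Y825.EV (Shallow)

/-- every multiple of `180` from `540` on. -/
theorem every_multiple (n : ℕ) (hd : 180 ∣ n) (hn : 3 * 180 ≤ n) : Shallow n (n - 1) := by
  obtain ⟨t, rfl⟩ := hd
  have ht : 3 ≤ t := by omega
  have h := (main t ht).2 1 1 le_rfl
  rw [pow_one, pow_one, one_mul, one_mul, mul_comm] at h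
  exact h

theorem gap (t n : ℕ) (ht : 3 ≤ t) (hn : 1 ≤ n) (hd : t * 180 ∣ n) :
    Shallow n (n - n / (t * 180)) := by
  have hpos : 0 < t * 180 := by positivity
  exact Pool.Agent.R282.EV.gap (t * 180) (t * 180) n (main t ht).1
    (dvd_refl _) hpos (main t ht).2 hn hd

theorem log_bound : Real.log 540 ≤ 6.298 := by
  have h1 : (540 : ℝ) ^ 12 ≤ 2 ^ 109 := by norm_num
  have h2 := Real.log_le_log (by norm_num) h1
  rw [Real.log_pow, Real.log_pow] at h2
  have h3 := Real.log_two_lt_d9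
  push_cast at h2
  linarith

/-- The exponent reached along the powers of `540`. -/
theorem exponent (j : ℕ) : ∃ k : ℕ, Shallow (540 ^ j) k ∧
    (k : ℝ) ≤ ((540 ^ j : ℕ) : ℝ) ^ (1 - 2.94 / 10 ^ 4 : ℝ) := by
  have h := (main 3 le_rfl).2 1 j le_rfl
  norm_num at h
  refine ⟨539 ^ j, h, ?_⟩
  have hm : (0 : ℝ) < 540 := by norm_num
  have key : (539 : ℝ) ≤ 540 ^ (1 - 2.94 / 10 ^ 4 : ℝ) := by
    rw [Real.rpow_def_of_pos hm, mul_sub, mul_one, sub_eq_add_neg, Real.exp_add, Real.exp_log hm]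
    have h1 := Real.add_one_le_exp (-(Real.log 540 * (2.94 / 10 ^ 4)))
    have h2 := log_bound
    have h3 : (1 : ℝ) - 1 / 540 ≤ Real.exp (-(Real.log 540 * (2.94 / 10 ^ 4))) := by
      refine le_trans ?_ h1
      have : Real.log 540 * (2.94 / 10 ^ 4) ≤ 1 / 540 := by
        calc Real.log 540 * (2.94 / 10 ^ 4) ≤ 6.298 * (2.94 / 10 ^ 4) := by
              refine mul_le_mul_of_nonneg_right h2 (by positivity)
          _ ≤ 1 / 540 := by norm_num
      linarith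
    calc (539 : ℝ) = 540 * (1 - 1 / 540) := by norm_num
      _ ≤ _ := mul_le_mul_of_nonneg_left h3 hm.le
  push_cast
  calc (539 : ℝ) ^ j ≤ (540 ^ (1 - 2.94 / 10 ^ 4 : ℝ)) ^ j :=
        pow_le_pow_left₀ (by norm_num) key j
    _ = (540 ^ j) ^ (1 - 2.94 / 10 ^ 4 : ℝ) := by
        rw [← Real.rpow_natCast ((540 : ℝ) ^ (1 - 2.94 / 10 ^ 4 : ℝ)) j,
          ← Real.rpow_mul hm.le, mul_comm, Real.rpow_mul hm.le, Real.rpow_natCast]

/-- Weak evasiveness fails for all `n` divisible by a power of `30` which is not too small. -/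
theorem thirty (C n j : ℕ) (hC : 1 ≤ C) (hn : 1 ≤ n) (hj : 2 ≤ j) (hd : 30 ^ j ∣ n)
    (hnC : n ≤ 30 ^ (C * j)) : ∃ k : ℕ, Shallow n k ∧
      (k : ℝ) < (n : ℝ) ^ (1 - 1 / (28800 * C : ℝ)) := by
  have h := Pool.Agent.R282.EV.weak (5 * 180) 2 (by norm_num) (by norm_num)
    (by decide) (main 5 (by norm_num)).2 C n j hC hn hj hd hnC
  obtain ⟨k, hk, hk2⟩ := h
  refine ⟨k, hk, ?_⟩
  have e : (16 * ((2 : ℕ) : ℝ) * C * 30 ^ 2 : ℝ) = 28800 * C := by
    push_cast; ring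
  rwa [e] at hk2

end Pool.Agent.H73.FX
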