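import Pool.Agent.H73.FX.Mf
import Pool.Agent.H702.EX.Sym

set_option autoImplicit false

/-! # Words; assembly (helper73, after helper702) -/

namespace Pool.Agent.H73.FX

open Set
open Pool.Agent.R282.EV (Gst)
open Pool.Agent.Y825.EV (Shallow)
open Pool.Agent.H702.EX (W1 assemble)

/-- type preserving symmetries. -/
def good (σ : Equiv.Perm (Fin 17)) : Prop :=
  (∀ x, t0 (σ x) = t0 x) ∧ ∀ A : Set (Fin 17), MM (σ '' A) ↔ MM A

theorem good_refl : good (Equiv.refl _) := ⟨fun _ => rfl, fun A => by simp⟩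

theorem good_trans {σ τ : Equiv.Perm (Fin 17)} (h1 : good σ) (h2 : good τ) :
    good (σ.trans τ) := by
  refine ⟨fun x => (h2.1 _).trans (h1.1 x), fun A => ?_⟩
  have : (σ.trans τ) '' A = τ '' (σ '' A) := by
    rw [Set.image_image]; rfl
  rw [this, h2.2, h1.2]

theorem good_symm {σ : Equiv.Perm (Fin 17)} (h : good σ) : good σ.symm := by
  refine ⟨fun x => ?_, fun A => ?_⟩
  · have := h.1 (σ.symm x)
    rw [σ.apply_symm_apply] at this
    exact this.symm
  · rw [← h.2, Set.image_image]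
    simp

theorem good_gen (c : Fin 2) : good (gen c) := ⟨t0_gen c, MM_gen c⟩

/-- connected by a symmetry. -/
def Rch (u v : Fin 17) : Prop := ∃ σ, good σ ∧ σ u = v

theorem Rch.refl (u : Fin 17) : Rch u u := ⟨_, good_refl, rfl⟩

theorem Rch.trans {u v w : Fin 17} (h1 : Rch u v) (h2 : Rch v w) : Rch u w := by
  obtain ⟨σ, hσ, rfl⟩ := h1
  obtain ⟨τ, hτ, rfl⟩ := h2
  exact ⟨_, good_trans hσ hτ, rfl⟩

theorem Rch.symm {u v : Fin 17} (h : Rch u v) : Rch v u := by
  obtain ⟨σ, hσ, rfl⟩ := h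
  exact ⟨_, good_symm hσ, σ.symm_apply_apply u⟩

theorem rch_pa (x : Fin 17) : Rch (paF x) x := by
  rcases pa_spec x with h | ⟨c, h⟩
  · rw [h]; exact Rch.refl _
  · exact ⟨_, good_gen c, h⟩

theorem rch_it : ∀ (n : ℕ) (x : Fin 17), Rch (paF^[n] x) x := by
  intro n
  induction n with
  | zero => exact Rch.refl
  | succ n ih =>
    intro x
    rw [Function.iterate_succ_apply]
    exact (ih _).trans (rch_pa x)

theorem rch_of_type (u v : Fin 17) (h : t0 u = t0 v) : Rch u v := by
  have h1 := rt_type u v h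
  have h2 : Rch (rt u) u := rch_it 17 u
  have h3 : Rch (rt v) v := rch_it 17 v
  rw [← h1] at h3
  exact h2.symm.trans h3

/-! ### Dummy types -/

section dummy

variable (d : ℕ)

/-- types with dummies. -/
def tN : Fin 17 ⊕ Fin d → ℕ
  | Sum.inl v => t0 v
  | Sum.inr i => 3 + i.val

theorem tN_lt (v : Fin 17 ⊕ Fin d) : tN d v < d + 3 := by
  rcases v with v | i
  · have := t0_lt v
    show t0 v < d + 3
    omega
  · have := i.2
    show 3 + i.val < d + 3
    omega

/-- types in `ZMod (d + 3)`. -/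
def tZ (v : Fin 17 ⊕ Fin d) : ZMod (d + 3) := (tN d v : ZMod (d + 3))

theorem tZ_val (v : Fin 17 ⊕ Fin d) : (tZ d v).val = tN d v := by
  unfold tZ
  rw [ZMod.val_natCast, Nat.mod_eq_of_lt (tN_lt d v)]

theorem tZ_eq (v : Fin 17 ⊕ Fin d) (i : ZMod (d + 3)) : tZ d v = i ↔ tN d v = i.val := by
  rw [← tZ_val]
  exact ⟨fun h => by rw [h], fun h => ZMod.val_injective _ h⟩

theorem w1_gst {V D I I' : Type} {typ : V → I} {f : Set V → Prop} (typ' : V ⊕ D → I') (F : I → I')
    (hF : ∀ v, typ' (Sum.inl v) = F (typ v)) {T N : Set V} (h : W1 typ f T N) :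
    W1 typ' (Gst (D := D) f) (Sum.inl '' T) (Sum.inl '' N) := by
  induction h with
  | leaf T N w hT hN u hu huv h =>
    refine W1.leaf _ _ (Sum.inl w) ?_ ?_ (Sum.inl u) ⟨u, hu, rfl⟩ ?_ ?_
    · rintro ⟨x, hx, hxw⟩
      exact hT (Sum.inl_injective hxw ▸ hx)
    · rintro ⟨x, hx, hxw⟩
      exact hN (Sum.inl_injective hxw ▸ hx)
    · rw [hF, hF, huv]
    · intro X hTX hXN
      have h1 := h (Sum.inl ⁻¹' X) (fun x hx => hTX ⟨x, hx, rfl⟩) (by
        rw [Set.disjoint_left]
        intro x hx hxN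
        exact Set.disjoint_left.1 hXN hx ⟨x, hxN, rfl⟩)
      have e1 : (Sum.inl ⁻¹' (insert (Sum.inl w) X) : Set V) = insert w (Sum.inl ⁻¹' X) := by
        ext x
        simp
      have e2 : (Sum.inl ⁻¹' (X \ {Sum.inl w}) : Set V) = (Sum.inl ⁻¹' X) \ {w} := by
        ext x
        simp
      unfold Gst
      rw [e1, e2, h1]
      refine and_congr_right fun _ => forall_congr' fun j => ?_
      simp
  | query T N w hT hN _ _ ih1 ih2 =>
    refine W1.query _ _ (Sum.inl w) ?_ ?_ ?_ ?_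
    · rintro ⟨x, hx, hxw⟩
      exact hT (Sum.inl_injective hxw ▸ hx)
    · rintro ⟨x, hx, hxw⟩
      exact hN (Sum.inl_injective hxw ▸ hx)
    · rw [Set.image_insert_eq] at ih1
      exact ih1
    · rw [Set.image_insert_eq] at ih2
      exact ih2

/-! ### Number of vertices of a type -/

theorem card_fib_V : ∀ n : Fin 3, Nat.card {v : Fin 17 // t0 v = n.val} =
    (![5, 6, 6] : Fin 3 → ℕ) n := by
  intro n
  rw [Nat.card_eq_fintype_card]
  revert n
  decide +kernel

theorem card_fib (n : ℕ) : Nat.card {v : Fin 17 ⊕ Fin d // tN d v = n} =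
    Nat.card {v : Fin 17 // t0 v = n} + Nat.card {i : Fin d // 3 + i.val = n} := by
  rw [← Nat.card_sum]
  refine Nat.card_congr ?_
  exact Equiv.subtypeSum

theorem prod_fib : ∏ i : ZMod (d + 3), Nat.card {v : Fin 17 ⊕ Fin d // tZ d v = i} = 180 := by
  have h1 : ∀ i : ZMod (d + 3), Nat.card {v : Fin 17 ⊕ Fin d // tZ d v = i} =
      Nat.card {v : Fin 17 ⊕ Fin d // tN d v = i.val} := by
    intro i
    refine Nat.card_congr (Equiv.subtypeEquivRight fun v => tZ_eq d v i)
  have h2 : ∏ i : ZMod (d + 3), Nat.card {v : Fin 17 ⊕ Fin d // tN d v = i.val} =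
      ∏ n ∈ Finset.range (d + 3), Nat.card {v : Fin 17 ⊕ Fin d // tN d v = n} :=
    Fin.prod_univ_eq_prod_range (fun n => Nat.card {v : Fin 17 ⊕ Fin d // tN d v = n}) (d + 3)
  rw [Finset.prod_congr rfl fun i _ => h1 i, h2, add_comm d 3, Finset.prod_range_add]
  have h3 : ∀ m ∈ Finset.range d,
      Nat.card {v : Fin 17 ⊕ Fin d // tN d v = 3 + m} = 1 := by
    intro m hm
    rw [Finset.mem_range] at hm
    rw [card_fib]
    have e1 : Nat.card {v : Fin 17 // t0 v = 3 + m} = 0 := by
      rw [Nat.card_eq_zero]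
      left
      refine ⟨fun v => ?_⟩
      have := t0_lt v.1
      have := v.2
      omega
    have e2 : Nat.card {i : Fin d // 3 + i.val = 3 + m} = 1 := by
      rw [Nat.card_eq_one_iff_unique]
      refine ⟨⟨fun a b => ?_⟩, ⟨⟨m, hm⟩, rfl⟩⟩
      have h1 := a.2
      have h2 := b.2
      exact Subtype.ext (Fin.ext (by omega))
    rw [e1, e2]
  have h4 : ∀ n ∈ Finset.range 3, Nat.card {v : Fin 17 ⊕ Fin d // tN d v = n} =
      Nat.card {v : Fin 17 // t0 v = n} := by
    intro n hn
    rw [Finset.mem_range] at hn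
    rw [card_fib]
    have e1 : Nat.card {i : Fin d // 3 + i.val = n} = 0 := by
      rw [Nat.card_eq_zero]
      left
      refine ⟨fun v => ?_⟩
      have := v.2
      omega
    rw [e1, add_zero]
  rw [Finset.prod_congr rfl h3, Finset.prod_const_one, mul_one, Finset.prod_congr rfl h4]
  have h5 : ∏ n ∈ Finset.range 3, Nat.card {v : Fin 17 // t0 v = n} =
      ∏ n : Fin 3, Nat.card {v : Fin 17 // t0 v = n.val} :=
    (Fin.prod_univ_eq_prod_range (fun n => Nat.card {v : Fin 17 // t0 v = n}) 3).symm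
  rw [h5, Finset.prod_congr rfl fun n _ => card_fib_V n]
  decide +kernel

/-- For every `t ≥ 3` the number `m = 180 t` works. -/
theorem main (t : ℕ) (ht : 3 ≤ t) : 2 ≤ t * 180 ∧ ∀ r j : ℕ, 1 ≤ r →
    Shallow (r * (t * 180) ^ j) (r * (t * 180 - 1) ^ j) := by
  obtain ⟨d, rfl⟩ : ∃ d, t = d + 3 := ⟨t - 3, by omega⟩
  have : NeZero (d + 3) := ⟨by omega⟩
  have hsurj : Function.Surjective (tZ d) := by
    intro i
    have hi : i.val < d + 3 := ZMod.val_lt i
    by_cases h7 : 3 ≤ i.val
    · refine ⟨Sum.inr ⟨i.val - 3, by omega⟩, ?_⟩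
      rw [tZ_eq]
      show 3 + (i.val - 3) = i.val
      omega
    · have key : ∀ n : Fin 3, ∃ v : Fin 17, t0 v = n.val := by decide +kernel
      obtain ⟨v, hv⟩ := key ⟨i.val, by omega⟩
      refine ⟨Sum.inl v, ?_⟩
      rw [tZ_eq]
      exact hv
  have htr : ∀ u v, tZ d u = tZ d v → ∃ g : Equiv.Perm (Fin 17 ⊕ Fin d), g u = v ∧
      (∀ x, tZ d (g x) = tZ d x) ∧ ∀ A, Gst (D := Fin d) MM (g '' A) ↔ Gst (D := Fin d) MM A := by
    intro u v huv
    rw [tZ_eq, tZ_val] at huv
    rcases u with x | j <;> rcases v with y | j'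
    · obtain ⟨σ, hσ, hσx⟩ := rch_of_type x y huv
      refine ⟨Equiv.sumCongr σ (Equiv.refl _), ?_, ?_, ?_⟩
      · simp [hσx]
      · rintro (z | j)
        · rw [tZ_eq, tZ_val]
          exact hσ.1 z
        · rfl
      · intro A
        have e1 : Sum.inl ⁻¹' ((Equiv.sumCongr σ (Equiv.refl (Fin d))) '' A) =
            σ '' (Sum.inl ⁻¹' A) := by
          ext z
          constructor
          · rintro ⟨w, hw, hwz⟩
            rcases w with w | w
            · exact ⟨w, hw, Sum.inl_injective hwz⟩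
            · exact absurd hwz (by simp)
          · rintro ⟨w, hw, rfl⟩
            exact ⟨Sum.inl w, hw, rfl⟩
        have e2 : ∀ j : Fin d, (Sum.inr j ∈
            (Equiv.sumCongr σ (Equiv.refl (Fin d))) '' A) ↔ Sum.inr j ∈ A := by
          intro j
          constructor
          · rintro ⟨w, hw, hwz⟩
            rcases w with w | w
            · exact absurd hwz (by simp)
            · have : w = j := Sum.inr_injective hwz
              exact this ▸ hw
          · intro hj
            exact ⟨Sum.inr j, hj, rfl⟩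
        have e3 := hσ.2 (Sum.inl ⁻¹' A)
        rw [← e1] at e3
        exact and_congr e3 (forall_congr' fun j => not_congr (e2 j))
    · have := t0_lt x
      have h1 : t0 x = 3 + j'.val := huv
      omega
    · have := t0_lt y
      have h1 : 3 + j.val = t0 y := huv
      omega
    · have h1 : 3 + j.val = 3 + j'.val := huv
      have h2 : j = j' := Fin.ext (by omega)
      subst h2
      exact ⟨Equiv.refl _, rfl, fun _ => rfl, fun A => by simp⟩
  have hF : ∀ v : Fin 17, tZ d (Sum.inl v) = (fun n : ℕ => (n : ZMod (d + 3))) (t0 v) :=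
    fun v => rfl
  have hw1 := w1_gst (D := Fin d) (tZ d) _ hF w1_A
  have hw2 := w1_gst (D := Fin d) (tZ d) _ hF w1_B
  rw [Set.image_empty, Set.image_singleton] at hw1
  rw [Set.image_singleton, Set.image_singleton] at hw2
  refine assemble (tZ d) (Gst (D := Fin d) MM) hsurj ?_ ?_ htr (Sum.inl 11)
    (Sum.inl 12) (Sum.inl 13) ?_ ?_ ?_ ?_ ?_ hw1 hw2 _ ?_
  · exact fun A B hAB hB => ⟨MM_down _ _ (Set.preimage_mono hAB) hB.1, fun j hj => hB.2 j (hAB hj)⟩
  · exact ⟨by rw [Set.preimage_empty]; exact MM_empty, fun j hj => hj⟩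
  · rw [tZ_eq, tZ_val]
    show t0 12 = t0 11
    decide +kernel
  · rw [tZ_eq, tZ_val]
    show t0 13 = t0 11
    decide +kernel
  · intro h
    have h2 : (13 : Fin 17) = 11 := Sum.inl_injective h
    exact absurd h2 (by decide)
  · intro h
    have h2 : (13 : Fin 17) = 12 := Sum.inl_injective h
    exact absurd h2 (by decide)
  · rintro ⟨h, _⟩
    apply not_pair
    refine MM_down _ _ ?_ h
    rintro x (hx | hx)
    · rw [hx]; exact Or.inl rfl
    · rw [Set.mem_singleton_iff] at hx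
      rw [hx]; exact Or.inr rfl
  · rw [prod_fib]

end dummy

end Pool.Agent.H73.FX
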