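import Pool.Agent.H73.EV.Chk

set_option autoImplicit false

/-! # Complexes given by facets and their bitmaps (helper73) -/

namespace Pool.Agent.H73.FX

open Set Pool.Agent.H73.EV

theorem bm_lt (p : ℕ → Bool) : ∀ n, bm p n < 2 ^ 2 ^ n := by
  intro n
  induction n with
  | zero => norm_num [bm]
  | succ n ih =>
    have h1 : bm p n < 2 ^ 2 ^ (n + 1) := lt_of_lt_of_le ih
      (Nat.pow_le_pow_right (by norm_num) (Nat.pow_le_pow_right (by norm_num) (Nat.le_succ n)))
    rw [bm]
    split_ifs
    · refine Nat.or_lt_two_pow h1 ?_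
      rw [Nat.shiftLeft_eq, show 2 ^ (n + 1) = 2 ^ n + 2 ^ n by ring, pow_add]
      exact Nat.mul_lt_mul_of_pos_right ih (by positivity)
    · exact h1

theorem bm_conv (p : ℕ → Bool) : ∀ (n : ℕ) (Y : Finset ℕ), (∀ i ∈ Y, i < n) →
    (bm p n).testBit (∑ i ∈ Y, 2 ^ i) = true → ∀ i ∈ Y, p i = true := by
  intro n
  induction n with
  | zero =>
    intro Y hY _ i hi
    exact absurd (hY i hi) (by omega)
  | succ n ih =>
    intro Y hY h
    by_cases hn : n ∈ Y
    · have h1 : ∑ i ∈ Y, 2 ^ i = 2 ^ n + ∑ i ∈ Y.erase n, 2 ^ i :=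
        (Finset.add_sum_erase _ _ hn).symm
      have h0 : (bm p n).testBit (∑ i ∈ Y, 2 ^ i) = false := by
        apply Nat.testBit_lt_two_pow
        exact lt_of_lt_of_le (bm_lt p n) (Nat.pow_le_pow_right (by norm_num) (by omega))
      rw [bm] at h
      split_ifs at h with hp
      · rw [Nat.testBit_or, h0, Bool.false_or, Nat.testBit_shiftLeft, Bool.and_eq_true, h1,
          Nat.add_sub_cancel_left] at h
        intro i hi
        by_cases hin : i = n
        · rw [hin]; exact hp
        · refine ih (Y.erase n) (fun j hj => ?_) h.2 i (Finset.mem_erase.2 ⟨hin, hi⟩)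
          rw [Finset.mem_erase] at hj
          have := hY j hj.2
          omega
      · rw [h0] at h
        exact absurd h Bool.false_ne_true
    · have hY2 : ∀ i ∈ Y, i < n := fun i hi => by
        have := hY i hi
        have : i ≠ n := fun e => hn (e ▸ hi)
        omega
      have hlt : ∑ i ∈ Y, 2 ^ i < 2 ^ n := Nat.geomSum_lt le_rfl hY2
      have h2 : (bm p n).testBit (∑ i ∈ Y, 2 ^ i) = true := by
        rw [bm] at h
        split_ifs at h with hp
        · rw [Nat.testBit_or, Nat.testBit_shiftLeft, Bool.or_eq_true, Bool.and_eq_true] at h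
          rcases h with h | h
          · exact h
          · have := of_decide_eq_true h.1
            omega
        · exact h
      exact ih Y hY2 h2

theorem bm_iff {n : ℕ} (p : ℕ → Bool) (X : Set (Fin n)) :
    (bm p n).testBit (code X) = true ↔ ∀ i ∈ X, p i.val = true := by
  constructor
  · intro h i hi
    exact bm_conv p n (toN X) (fun j hj => by
      rw [mem_toN] at hj
      exact hj.1) h i.val ((mem_toN _ _).2 ⟨i.2, hi⟩)
  · exact bm_code p X

/-- The sets contained in one of the sets of a list. -/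
def InF {n : ℕ} (F : List ℕ) (X : Set (Fin n)) : Prop := ∃ f ∈ F, ∀ i ∈ X, f.testBit i.val = true

theorem inF_down {n : ℕ} (F : List ℕ) (A B : Set (Fin n)) (hAB : A ⊆ B) (h : InF F B) :
    InF F A := by
  obtain ⟨f, hf, h⟩ := h
  exact ⟨f, hf, fun i hi => h i (hAB hi)⟩

/-- The bitmap. -/
def bigF (n : ℕ) : List ℕ → ℕ
  | [] => 0
  | f :: F => bm (fun i => f.testBit i) n ||| bigF n F

theorem bigF_iff {n : ℕ} (F : List ℕ) (X : Set (Fin n)) :
    (bigF n F).testBit (code X) = true ↔ InF F X := by
  induction F with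
  | nil => simp [bigF, InF]
  | cons f F ih =>
    rw [bigF, Nat.testBit_or, Bool.or_eq_true, bm_iff, ih]
    simp only [InF, List.mem_cons, exists_eq_or_imp]

/-- the code of the image of a set under a map. -/
def im (g : ℕ → ℕ) (f : ℕ) : ℕ → ℕ
  | 0 => 0
  | n + 1 => if f.testBit n then im g f n + 2 ^ g n else im g f n

theorem im_eq (g : ℕ → ℕ) (f : ℕ) : ∀ n, im g f n =
    ∑ i ∈ (Finset.range n).filter (fun i => f.testBit i = true), 2 ^ g i := by
  intro n
  induction n with
  | zero => simp [im]
  | succ n ih =>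
    rw [im, Finset.range_add_one, Finset.filter_insert, ih]
    split_ifs
    · rw [Finset.sum_insert (by simp), add_comm]
    · rfl

theorem inF_perm {n : ℕ} (F : List ℕ) (σ : Equiv.Perm (Fin n)) (g : ℕ → ℕ)
    (hg : ∀ i : Fin n, g i.val = (σ i).val)
    (hall : (F.all fun f => (bigF n F).testBit (im g f n)) = true) (A : Set (Fin n))
    (h : InF F A) : InF F (σ '' A) := by
  obtain ⟨f, hf, h⟩ := h
  have h1 := List.all_eq_true.1 hall f hf
  have e : im g f n = code (σ '' (st n f)) := by
    rw [im_eq]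
    unfold code
    have e2 : toN (σ '' (st n f)) =
        ((Finset.range n).filter (fun i => f.testBit i = true)).image g := by
      ext i
      rw [mem_toN, Finset.mem_image]
      constructor
      · rintro ⟨hi, y, hy, hyi⟩
        refine ⟨y.val, ?_, ?_⟩
        · rw [Finset.mem_filter, Finset.mem_range]
          exact ⟨y.2, hy⟩
        · rw [hg, hyi]
      · rintro ⟨a, ha, rfl⟩
        rw [Finset.mem_filter, Finset.mem_range] at ha
        have hga : g a = (σ ⟨a, ha.1⟩).val := hg ⟨a, ha.1⟩
        have hlt : g a < n := by rw [hga]; exact (σ ⟨a, ha.1⟩).2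
        exact ⟨hlt, ⟨a, ha.1⟩, ha.2, Fin.ext hga.symm⟩
    rw [e2, Finset.sum_image]
    intro a ha b hb hab
    rw [Finset.mem_coe, Finset.mem_filter, Finset.mem_range] at ha hb
    have h3 : g a = (σ ⟨a, ha.1⟩).val := hg ⟨a, ha.1⟩
    have h4 : g b = (σ ⟨b, hb.1⟩).val := hg ⟨b, hb.1⟩
    have hab' : g a = g b := hab
    have h5 : σ ⟨a, ha.1⟩ = σ ⟨b, hb.1⟩ := Fin.ext (by rw [← h3, ← h4, hab'])
    exact congrArg Fin.val (σ.injective h5)
  rw [e, bigF_iff] at h1
  exact inF_down F _ _ (Set.image_mono fun i hi => h i hi) h1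

end Pool.Agent.H73.FX
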