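import Pool.Agent.H73.FX.Dat
import Pool.Agent.H73.FX.Bmi
import Pool.Agent.H702.EX.Red

set_option autoImplicit false

/-! # Facts about the complex on 17 vertices (helper73) -/

namespace Pool.Agent.H73.FX

open Set Pool.Agent.H73.EV Pool.Agent.H73.FX
open Pool.Agent.H702.EX (W1)

/-- The complex on 17 vertices: the sets contained in a facet. -/
def MM (X : Set (Fin 17)) : Prop := InF fct X

/-- The bitmap of the complex. -/
def big : ℕ := bigF 17 fct

/-- bitmap of all sets. -/
def full : ℕ := bm (fun _ => true) 17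

theorem inv0 : Inv MM big full ∅ ∅ :=
  ⟨fun X _ => by rw [union_empty]; exact (bigF_iff fct X).symm,
    fun X _ => bm_code _ _ (fun _ _ => rfl)⟩

theorem MM_down (A B : Set (Fin 17)) (hAB : A ⊆ B) (h : MM B) : MM A := inF_down fct A B hAB h

theorem MM_empty : MM ∅ := ⟨2535, by decide, fun i hi => absurd hi (Set.notMem_empty i)⟩

/-- the bitmask of the type of a vertex. -/
def tmask (w : ℕ) : ℕ := (tms.getD (t0N w) 0)

/-- condition for leaves, computable. -/
def qM (_ m w : ℕ) : Bool := !(Nat.beq (m &&& tmask w) 0)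

/-- condition for the leaves. -/
def Qf (_ N : Set (Fin 17)) (w : Fin 17) : Prop := ∃ u ∈ N, t0 u = t0 w

theorem tmask_spec : ∀ w : Fin 17, ∀ i : Fin 17, (tmask w.val).testBit i.val = true →
    t0 i = t0 w := by decide +kernel

theorem tmask_lt : ∀ w : Fin 17, tmask w.val < 2 ^ 17 := by decide +kernel

theorem qM_spec (t m w : ℕ) (hw : w < 17) (h : qM t m w = true) :
    Qf (st 17 t) (st 17 m) ⟨w, hw⟩ := by
  simp only [qM, Bool.not_eq_true'] at h
  have h1 : m &&& tmask w ≠ 0 := by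
    intro h2
    rw [h2] at h
    simp at h
  obtain ⟨i, hi⟩ := Nat.exists_testBit_of_ne_zero h1
  rw [Nat.testBit_and, Bool.and_eq_true] at hi
  have hiN : i < 17 := by
    by_contra hik
    have h3 : tmask w < 2 ^ i :=
      lt_of_lt_of_le (tmask_lt ⟨w, hw⟩) (Nat.pow_le_pow_right (by norm_num) (by omega))
    rw [Nat.testBit_lt_two_pow h3] at hi
    exact Bool.false_ne_true hi.2
  exact ⟨⟨i, hiN⟩, hi.1, tmask_spec ⟨w, hw⟩ ⟨i, hiN⟩ hi.2⟩

set_option maxRecDepth 100000 in
theorem chkA : chk 17 qM trA big (full &&& msk 17 11) 0 (0 ||| 2 ^ 11) = true := by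
  decide +kernel

set_option maxRecDepth 100000 in
theorem chkB : chk 17 qM trB (big >>> 2 ^ 11) ((full &&& msk 17 11) &&& msk 17 12)
    (0 ||| 2 ^ 11) (0 ||| 2 ^ 12) = true := by decide +kernel

theorem st_sing (v : Fin 17) : st 17 (0 ||| 2 ^ v.val) = {v} := by
  rw [st_or, st_zero]
  simp

theorem wm_A : WM Qf MM ∅ {11} := by
  have h := inv0.abs 11
  have e0 : insert (11 : Fin 17) (∅ : Set (Fin 17)) = {11} := by simp
  rw [e0] at h
  have e : st 17 (0 ||| 2 ^ 11) = {(11 : Fin 17)} := st_sing 11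
  have := chk_sound (M := MM) Qf qM qM_spec trA big (full &&& msk 17 11) 0 (0 ||| 2 ^ 11) chkA (by
    rw [st_zero, e]; exact h)
  rwa [st_zero, e] at this

theorem wm_B : WM Qf MM {11} {12} := by
  have h := (inv0.pres 11 (Set.notMem_empty _) (Set.notMem_empty _)).abs 12
  have e0 : insert (11 : Fin 17) (∅ : Set (Fin 17)) = {11} := by simp
  have e1 : insert (12 : Fin 17) (∅ : Set (Fin 17)) = {12} := by simp
  have ea : ((11 : Fin 17) : ℕ) = 11 := rfl
  have eb : ((12 : Fin 17) : ℕ) = 12 := rfl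
  rw [e0, e1, ea, eb] at h
  have e : st 17 (0 ||| 2 ^ 11) = {(11 : Fin 17)} := st_sing 11
  have e2 : st 17 (0 ||| 2 ^ 12) = {(12 : Fin 17)} := st_sing 12
  have := chk_sound (M := MM) Qf qM qM_spec trB (big >>> 2 ^ 11)
    ((full &&& msk 17 11) &&& msk 17 12) (0 ||| 2 ^ 11) (0 ||| 2 ^ 12) chkB (by
    rw [e2, e]; exact h)
  rwa [e2, e] at this

theorem w1_of {T N : Set (Fin 17)} (h : WM Qf MM T N) : W1 t0 MM T N := by
  induction h with
  | leaf T N v hT hN hQ h =>
    obtain ⟨u, hu, huv⟩ := hQ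
    exact W1.leaf T N v hT hN u hu huv h
  | query T N v hT hN _ _ ih1 ih2 => exact W1.query T N v hT hN ih1 ih2

theorem w1_A : W1 t0 MM ∅ {11} := w1_of wm_A

theorem w1_B : W1 t0 MM {11} {12} := w1_of wm_B

theorem not_pair : ¬ MM {11, 12} := by
  rintro ⟨f, hf, h⟩
  have key : ∀ f ∈ fct, ¬ (f.testBit 11 = true ∧ f.testBit 12 = true) := by decide +kernel
  exact key f hf ⟨h 11 (Or.inl rfl), h 12 (Or.inr rfl)⟩

/-! ### Invariance -/

/-- the generators on natural numbers. -/
def gN (c : Fin 2) (i : ℕ) : ℕ := (gen c ⟨i % 17, Nat.mod_lt _ (by norm_num)⟩).val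

@[inherit_doc gN]
def gvN (c : Fin 2) (i : ℕ) : ℕ := ((gen c).symm ⟨i % 17, Nat.mod_lt _ (by norm_num)⟩).val

set_option maxRecDepth 100000 in
theorem all_gen : ∀ c : Fin 2, (fct.all fun f => big.testBit (im (gN c) f 17)) = true := by
  decide +kernel

set_option maxRecDepth 100000 in
theorem all_gv : ∀ c : Fin 2, (fct.all fun f => big.testBit (im (gvN c) f 17)) = true := by
  decide +kernel

theorem MM_gen (c : Fin 2) (A : Set (Fin 17)) : MM (gen c '' A) ↔ MM A := by
  constructor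
  · intro h
    have h2 : InF fct ((gen c).symm '' (gen c '' A)) := inF_perm fct (gen c).symm (gvN c) (fun i => by
      show ((gen c).symm ⟨i.val % 17, _⟩).val = _
      congr 2
      exact Fin.ext (Nat.mod_eq_of_lt i.2)) (all_gv c) _ h
    rw [← Set.image_comp] at h2
    have e : (⇑(gen c).symm ∘ ⇑(gen c)) '' A = A := by simp
    rw [e] at h2
    exact h2
  · exact inF_perm fct (gen c) (gN c) (fun i => by
      show ((gen c) ⟨i.val % 17, _⟩).val = _
      congr 2
      exact Fin.ext (Nat.mod_eq_of_lt i.2)) (all_gen c) A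

end Pool.Agent.H73.FX
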