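import Mathlib

set_option autoImplicit false

/-! # The group `A5` acting on 17 vertices, by tables (helper73) -/

namespace Pool.Agent.H73.FX

/-- A digit. -/
def dg (T w i : ℕ) : ℕ := (T >>> (w * i)) % 2 ^ w

/-- table of the generators. -/
def gT : ℕ := 
  577997426848356420985277478210528942932198900727873

/-- table of the inverses of the generators. -/
def gvT : ℕ := 
  535476951356844404870446515605892274701759005426690

/-- table of parents in a spanning forest of the orbits. -/
def paT : ℕ := 
  13918419294057246927946752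

/-- the generators as functions. -/
def gF (c : Fin 2) (x : Fin 17) : Fin 17 :=
  ⟨dg gT 5 (17 * c.val + x.val) % 17, Nat.mod_lt _ (by norm_num)⟩

@[inherit_doc gF]
def gvF (c : Fin 2) (x : Fin 17) : Fin 17 :=
  ⟨dg gvT 5 (17 * c.val + x.val) % 17, Nat.mod_lt _ (by norm_num)⟩

theorem gv_g : ∀ c : Fin 2, ∀ x : Fin 17, gvF c (gF c x) = x := by decide +kernel

theorem g_gv : ∀ c : Fin 2, ∀ x : Fin 17, gF c (gvF c x) = x := by decide +kernel

/-- The generators. -/
def gen (c : Fin 2) : Equiv.Perm (Fin 17) where
  toFun := gF c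
  invFun := gvF c
  left_inv := gv_g c
  right_inv := g_gv c

/-- types of the vertices, as a function of numbers. -/
def t0N (x : ℕ) : ℕ := if x < 5 then 0 else if x < 11 then 1 else 2

/-- types of the vertices. -/
def t0 (x : Fin 17) : ℕ := t0N x.val

/-- the bitmasks of the types. -/
def tms : List ℕ := [31, 2016, 129024]

theorem t0_gen : ∀ c : Fin 2, ∀ x : Fin 17, t0 (gen c x) = t0 x := by decide +kernel

theorem t0_lt : ∀ x : Fin 17, t0 x < 3 := by decide +kernel

/-- the parent. -/
def paF (x : Fin 17) : Fin 17 := ⟨dg paT 5 x.val % 17, Nat.mod_lt _ (by norm_num)⟩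

/-- the root of the orbit. -/
def rt (x : Fin 17) : Fin 17 := paF^[17] x

theorem pa_spec : ∀ x : Fin 17, paF x = x ∨ ∃ c : Fin 2, gen c (paF x) = x := by
  decide +kernel

theorem rt_type : ∀ x y : Fin 17, t0 x = t0 y → rt x = rt y := by decide +kernel

end Pool.Agent.H73.FX
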